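import Pool.Agent.H64.MF.GB

/-!
# Module FSF: the Fatou set of a locally maximal map of a family `F(d,k)`

`fs_attF`: if almost every map of the family has the Fatou set equal to the union of the basins of its attracting cycles, then the
Fatou set of a locally maximal map of the family is the union of the basins. PROOF. As `fs_att` (H64/MJ/FSA), with the moving repelling
cycles near the point (`per_dense`, `ks_sel`) in the place of the moving preimages.
-/

set_option autoImplicit false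

open Filter Topology Polynomial Metric Set MeasureTheory

namespace Pool.Agent.H64.MF

open Pool.Agent.H44.Fatou Pool.Agent.H32.BT Pool.Agent.H79.Eul Pool.Agent.H79.Par
open Pool.Agent.H35.EX Pool.Agent.H44.RR Pool.Agent.H56.HR Pool.Agent.H44.RC Pool.Agent.H47.RJ
open Pool.Agent.H47.NM Pool.Agent.H47.NN Pool.Agent.H44.ND Pool.Agent.H79.ES Pool.Agent.H64.MJ Pool.Agent.H57.CF
open Pool.Agent.H44.CP Pool.Agent.H64.PC Pool.Agent.H44.NP

variable {d k : ℕ}

/-- a direction whose multiples avoid a null set -/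
theorem dir_exF {N : Set (Em d k)} (hN : volume N = 0) (v : Em d k) :
    ∃ w : Em d k, ∀ n : ℕ, v + (1 / ((n : ℂ) + 1)) • w ∉ N := by
  have hH : (volume : Measure (Em d k)).IsAddHaarMeasure :=
    Measure.prod.instIsAddHaarMeasure (volume : Measure (Fin (d + 1) → ℂ)) (volume : Measure (Fin (d - k + 1) → ℂ))
  have hb : ∀ n : ℕ, volume {w : Em d k | v + (1 / ((n : ℂ) + 1)) • w ∈ N} = 0 := by
    intro n
    have hc : (1 / ((n : ℝ) + 1)) ≠ 0 := by positivity
    have h1 : {w : Em d k | v + (1 / ((n : ℂ) + 1)) • w ∈ N} =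
        (fun w : Em d k => (1 / ((n : ℝ) + 1)) • w) ⁻¹' ((fun x => v + x) ⁻¹' N) := by
      ext w
      show v + (1 / ((n : ℂ) + 1)) • w ∈ N ↔ v + (1 / ((n : ℝ) + 1)) • w ∈ N
      have h2 : (1 / ((n : ℂ) + 1)) • w = (1 / ((n : ℝ) + 1)) • w := by
        have h3 : (1 / ((n : ℂ) + 1)) = (((1 / ((n : ℝ) + 1)) : ℝ) : ℂ) := by push_cast; ring
        rw [h3]
        ext i <;> simp
      rw [h2]
    rw [h1, Measure.addHaar_preimage_smul _ hc, measure_preimage_add, hN, mul_zero]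
  have h2 : volume (⋃ n : ℕ, {w : Em d k | v + (1 / ((n : ℂ) + 1)) • w ∈ N}) = 0 := measure_iUnion_null hb
  by_contra hcon
  push Not at hcon
  have h3 : (⋃ n : ℕ, {w : Em d k | v + (1 / ((n : ℂ) + 1)) • w ∈ N}) = univ := by
    refine eq_univ_of_forall fun w => ?_
    rw [mem_iUnion]
    exact hcon w
  rw [h3] at h2
  have h4 : 0 < volume (univ : Set (Em d k)) := isOpen_univ.measure_pos volume univ_nonempty
  exact h4.ne' h2

/-- the orbits of a point which never meets three moving points move uniformly -/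
theorem orb_lipF {v w : E d} {s : ℝ} {Q : Fin 3 → ℂ → ℂ} (hs : 0 < s)
    (hcop : ∀ t : ℂ, ‖t‖ < s → IsCoprime (pol (v + t • w).1) (pol (v + t • w).2))
    (hdeg : ∀ t : ℂ, ‖t‖ < s → max (pol (v + t • w).1).natDegree (pol (v + t • w).2).natDegree = d)
    (hQ : ∀ j, DifferentiableOn ℂ (Q j) (ball 0 s)) (hne : ∀ i j, i ≠ j → ∀ t : ℂ, ‖t‖ < s → Q i t ≠ Q j t) {z0 : ℂ}
    (hom : ∀ t : ℂ, ‖t‖ < s → ∀ k : ℕ, ∀ j, (Rf (v + t • w))^[k] (z0 : OnePoint ℂ) ≠ (Q j t : OnePoint ℂ)) :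
    ∃ C : ℝ, 0 ≤ C ∧ ∀ t : ℂ, ‖t‖ < s / 2 → ∀ k : ℕ,
      chord ((Rf v)^[k] (z0 : OnePoint ℂ)) ((Rf (v + t • w))^[k] (z0 : OnePoint ℂ)) ≤ C * ‖t‖ := by
  obtain ⟨C, hC, h1⟩ := lip3 hs (α := Q) (β := fun _ _ => 1) hQ
    (fun i => differentiableOn_const _)
    (fun i j hij t ht => by
      rw [mul_one, mul_one]
      exact sub_ne_zero.2 (hne i j hij t (mem_ball_zero_iff.1 ht)))
  refine ⟨C, hC, fun t ht k => ?_⟩
  have hGd : DifferentiableOn ℂ (fun t : ℂ => hi (v + t • w) k (z0, 1)) (ball 0 s) := by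
    intro t _
    have h2 : DifferentiableAt ℂ (fun t : ℂ => ((v + t • w, (z0, 1)) : E d × (ℂ × ℂ))) t :=
      ((differentiableAt_const _).add (differentiableAt_id.smul_const w)).prodMk (differentiableAt_const _)
    have h3 : DifferentiableAt ℂ (fun p : E d × (ℂ × ℂ) => hi p.1 k p.2)
        ((v + t • w, (z0, 1)) : E d × (ℂ × ℂ)) := (Pool.Agent.H64.PC.hi_an k _).differentiableAt
    exact (h3.comp t h2).differentiableWithinAt
  have hpt : ∀ t ∈ ball (0 : ℂ) s, ((hi (v + t • w) k (z0, 1)).1 ≠ 0 ∨ (hi (v + t • w) k (z0, 1)).2 ≠ 0) ∧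
      (Rf (v + t • w))^[k] (z0 : OnePoint ℂ) = pt (hi (v + t • w) k (z0, 1)).1 (hi (v + t • w) k (z0, 1)).2 := by
    intro t ht
    have h2 := Pool.Agent.H64.PC.hi_ne (hcop t (mem_ball_zero_iff.1 ht)) (hdeg t (mem_ball_zero_iff.1 ht))
      (q := ((z0, 1) : ℂ × ℂ)) (Or.inr one_ne_zero) k
    have h3 : pt ((z0, 1) : ℂ × ℂ).1 ((z0, 1) : ℂ × ℂ).2 = (z0 : OnePoint ℂ) := by
      unfold pt
      rw [if_neg one_ne_zero, div_one]
    rw [h3] at h2
    exact h2
  have h2 := h1 (fun t => (hi (v + t • w) k (z0, 1)).1) (fun t => (hi (v + t • w) k (z0, 1)).2) hGd.fst hGd.snd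
    (fun j t ht h0 => by
      rw [one_mul] at h0
      obtain ⟨h3, h4⟩ := hpt t ht
      apply hom t (mem_ball_zero_iff.1 ht) k j
      rw [h4]
      exact (pt_coe_iff h3).2 h0) t ht
  have h3 := (hpt 0 (mem_ball_self hs)).2
  have h4 := (hpt t (mem_ball_zero_iff.2 (by linarith))).2
  rw [← h3, ← h4, zero_smul, add_zero] at h2
  exact h2

/-- a repelling cycle moves holomorphically on a disc of fixed size and stays in a fixed disc -/
theorem rep_mv {v w : E d} {r R : ℝ} (hr : 0 < r)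
    (hcop : ∀ t : ℂ, ‖t‖ ≤ r → IsCoprime (pol (v + t • w).1) (pol (v + t • w).2)) {p : ℕ}
    (hne : ∀ t : ℂ, ‖t‖ ≤ r → ∀ x m, Cyc (pol (v + t • w).1) (pol (v + t • w).2) p x m → ‖m‖ ≠ 1)
    (hR : ∀ t : ℂ, ‖t‖ ≤ r → ∀ x m, Cyc (pol (v + t • w).1) (pol (v + t • w).2) p x m →
      1 ≤ ‖m‖ → ∀ i, i ≤ p → ‖x i‖ ≤ R) {x : ℕ → ℂ} {m : ℂ} (hp : 0 < p) (hc : Cyc (pol v.1) (pol v.2) p x m)
    (hm : 1 < ‖m‖) : ∃ F : ℂ → ℂ, DifferentiableOn ℂ F (ball 0 r) ∧ F 0 = x 0 ∧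
      ∀ t ∈ ball (0 : ℂ) r, ‖F t‖ ≤ R ∧ (F t : OnePoint ℂ) ∈ JS (Rf (v + t • w)) := by
  have e0 : v + (0 : ℂ) • w = v := by rw [zero_smul, add_zero]
  have hwx : ∀ j, j ≤ p → wi j (v, x 0) = x j := by
    intro j
    induction j with
    | zero => intro _; rfl
    | succ j ih =>
      intro hj
      have h1 := ih (by omega)
      have h2 := hc.step j (by omega)
      show (pol v.1).eval (wi j (v, x 0)) / (pol v.2).eval (wi j (v, x 0)) = x (j + 1)
      rw [h1, h2]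
  obtain ⟨g1, g2, g3⟩ := cyc_wi hc
  have hz : ((0 : ℂ), x 0) ∈ KS v w p r R := by
    refine ⟨?_, ?_, ?_, ?_, ?_⟩
    · rw [norm_zero]; exact hr.le
    · show (v + (0 : ℂ) • w, x 0) ∈ (Gp p : Set (E d × ℂ))
      rw [e0]; exact g1
    · show wi p (v + (0 : ℂ) • w, x 0) = x 0
      rw [e0]; exact g2
    · show 1 ≤ ‖mu p (v + (0 : ℂ) • w, x 0)‖
      rw [e0, g3]; exact hm.le
    · intro i hi
      show ‖wi i (v + (0 : ℂ) • w, x 0)‖ ≤ R
      rw [e0, hwx i hi]
      exact hR 0 (by rw [norm_zero]; exact hr.le) x m (by rw [e0]; exact hc) hm.le i hi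
  obtain ⟨F, hF, hF0, hFK⟩ := ks_sel hr hcop hne hR hz
  refine ⟨F, hF, hF0, fun t ht => ?_⟩
  obtain ⟨h1, h2, h3, h4, h5⟩ := hFK t ht
  refine ⟨h5 0 (Nat.zero_le _), ?_⟩
  have hcy := wi_cyc h2 h3
  exact cyc_js (hcop t h1) hp hcy (lt_of_le_of_ne h4 (Ne.symm (hne t h1 _ _ hcy)))

/-- the Fatou set of a generic locally maximal map of the family is the union of the basins -/
theorem fsF_gen (hd : 2 ≤ d) (hk : 2 ≤ k) (hkd : k ≤ d) (hfat : volume {x : Em d k | IsCoprime (pol x.1) (pol x.2) ∧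
      max (pol x.1).natDegree (pol x.2).natDegree = d ∧
      FS (Rf (ex d k x)) ≠ {z | Att (Rf (ex d k x)) z}} = 0)
    {x0 : Em d k} (hg : GenM d k (pol x0.1) (pol x0.2)) (hup : ¬ UpF d k x0) {z : OnePoint ℂ}
    (hF : z ∈ FS (Rf (ex d k x0))) : Att (Rf (ex d k x0)) z := by
  by_contra hna
  have hcop0 := ex_cop hg.cop
  have hdeg0 := ex_deg (genM_deg hg)
  obtain ⟨hinf0, hinf1⟩ := inf_att hk hkd hg
  have hzi : z ≠ OnePoint.infty := by
    rintro rfl
    exact hna hinf1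
  obtain ⟨z0, rfl⟩ := OnePoint.ne_infty_iff_exists.1 hzi
  obtain ⟨ε0, R, hε0, hR, hgb⟩ := good_ball hd hk hkd hg hup
  obtain ⟨w, hw⟩ := dir_exF hfat x0
  obtain ⟨r, hrd⟩ : ∃ r, r = ε0 / (2 * (‖w‖ + 1)) := ⟨_, rfl⟩
  have hw0 : 0 < ‖w‖ + 1 := by positivity
  have hr : 0 < r := by rw [hrd]; positivity
  have hvb : ∀ t : ℂ, ‖t‖ ≤ r → x0 + t • w ∈ ball x0 ε0 := by
    intro t ht
    rw [mem_ball_iff_norm, add_sub_cancel_left, norm_smul]
    rw [hrd, le_div_iff₀ (by positivity)] at ht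
    have h1 := norm_nonneg t
    have h2 := norm_nonneg w
    nlinarith
  obtain ⟨v, hv⟩ : ∃ v : E d, v = ex d k x0 := ⟨_, rfl⟩
  obtain ⟨u, hu⟩ : ∃ u : E d, u = ex d k w := ⟨_, rfl⟩
  have hlin : ∀ t : ℂ, v + t • u = ex d k (x0 + t • w) := by
    intro t
    rw [hv, hu]
    exact ex_lin x0 w t
  have hcop : ∀ t : ℂ, ‖t‖ ≤ r → IsCoprime (pol (v + t • u).1) (pol (v + t • u).2) := by
    intro t ht
    rw [hlin]
    exact ex_cop (hgb _ (hvb t ht)).1.cop
  have hdeg : ∀ t : ℂ, ‖t‖ ≤ r → max (pol (v + t • u).1).natDegree (pol (v + t • u).2).natDegree = d := by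
    intro t ht
    rw [hlin]
    exact ex_deg (genM_deg (hgb _ (hvb t ht)).1)
  have hne : ∀ p : ℕ, 0 < p → ∀ t : ℂ, ‖t‖ ≤ r → ∀ x m,
      Cyc (pol (v + t • u).1) (pol (v + t • u).2) p x m → ‖m‖ ≠ 1 := by
    intro p hp t ht x m hc
    rw [hlin] at hc
    exact (hgb _ (hvb t ht)).2.2.1 p hp x m hc
  have hbd : ∀ p : ℕ, 0 < p → ∀ t : ℂ, ‖t‖ ≤ r → ∀ x m,
      Cyc (pol (v + t • u).1) (pol (v + t • u).2) p x m → 1 ≤ ‖m‖ → ∀ i, i ≤ p → ‖x i‖ ≤ R := by
    intro p hp t ht x m hc hm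
    rw [hlin] at hc
    exact (hgb _ (hvb t ht)).2.2.2 p hp x m hc hm
  have hinf : ∀ t : ℂ, ‖t‖ ≤ r → Rf (v + t • u) OnePoint.infty = OnePoint.infty := by
    intro t ht
    rw [hlin]
    exact (inf_att hk hkd (hgb _ (hvb t ht)).1).1
  have hshift : ∀ t1 t : ℂ, v + t1 • u + t • u = v + (t1 + t) • u := by
    intro t1 t
    rw [add_assoc, ← add_smul]
  have hv0 : v + (0 : ℂ) • u = v := by rw [zero_smul, add_zero]
  rw [← hv] at hF hna hcop0 hdeg0 hinf0 hinf1
  -- the Fatou set contains a disc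
  obtain ⟨ε, hε, hεF⟩ : ∃ ε : ℝ, 0 < ε ∧ ∀ z ∈ ball z0 ε, (z : OnePoint ℂ) ∈ FS (Rf v) := by
    have h1 : ∀ᶠ y in 𝓝 (z0 : OnePoint ℂ), y ∈ FS (Rf v) := isOpen_interior.mem_nhds hF
    rw [OnePoint.nhds_coe_eq, eventually_map] at h1
    exact Metric.eventually_nhds_iff_ball.1 h1
  -- three repelling cycles
  obtain ⟨y, hy⟩ := js_ne hd hcop0 hdeg0 hinf1 hna
  have hN0 : ∀ p : ℕ, 0 < p → ∀ x m, Cyc (pol v.1) (pol v.2) p x m → ‖m‖ ≠ 1 := by
    intro p hp x m hc
    have h1 := hne p hp 0 (by rw [norm_zero]; exact hr.le) x m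
    rw [hv0] at h1
    exact h1 hc
  obtain ⟨p0, x1, m0, a0, b0, c0, -, -⟩ := rep_near hd hcop0 hdeg0 hinf0 hN0 hy univ_mem finite_empty
  obtain ⟨p1, x2, m1, a1, b1, c1, -, d1⟩ := rep_near hd hcop0 hdeg0 hinf0 hN0 hy univ_mem
    (finite_singleton (x1 0 : OnePoint ℂ))
  obtain ⟨p2, x3, m2, a2, b2, c2, -, d2⟩ := rep_near hd hcop0 hdeg0 hinf0 hN0 hy univ_mem
    ((finite_singleton (x1 0 : OnePoint ℂ)).insert (x2 0 : OnePoint ℂ))
  obtain ⟨Q0, e1, f1, g1⟩ := rep_mv hr hcop (hne p0 a0) (hbd p0 a0) a0 b0 c0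
  obtain ⟨Q1, e2, f2, g2⟩ := rep_mv hr hcop (hne p1 a1) (hbd p1 a1) a1 b1 c1
  obtain ⟨Q2, e3, f3, g3⟩ := rep_mv hr hcop (hne p2 a2) (hbd p2 a2) a2 b2 c2
  have n1 : Q0 0 ≠ Q1 0 := by
    rw [f1, f2]
    intro h
    exact d1 (by rw [← h]; exact rfl)
  have n2 : Q0 0 ≠ Q2 0 := by
    rw [f1, f3]
    intro h
    exact d2 (Or.inr (by rw [← h]; exact rfl))
  have n3 : Q1 0 ≠ Q2 0 := by
    rw [f2, f3]
    intro h
    exact d2 (Or.inl (by rw [← h]))
  have hc0 : ∀ {F : ℂ → ℂ}, DifferentiableOn ℂ F (ball 0 r) → ContinuousAt F 0 := fun h =>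
    (h.differentiableAt (isOpen_ball.mem_nhds (mem_ball_self hr))).continuousAt
  have hevn : ∀ {F G : ℂ → ℂ}, DifferentiableOn ℂ F (ball 0 r) → DifferentiableOn ℂ G (ball 0 r) → F 0 ≠ G 0 →
      ∀ᶠ t in 𝓝 (0 : ℂ), F t ≠ G t := by
    intro F G h1 h2 h3
    have h4 : Tendsto (fun t => F t - G t) (𝓝 0) (𝓝 (F 0 - G 0)) := (hc0 h1).sub (hc0 h2)
    filter_upwards [h4.eventually_ne (sub_ne_zero.2 h3)] with t ht
    exact sub_ne_zero.1 ht
  obtain ⟨r1, hr1, hr1n⟩ := Metric.eventually_nhds_iff_ball.1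
    ((hevn e1 e2 n1).and ((hevn e1 e3 n2).and (hevn e2 e3 n3)))
  -- the point stays in the Fatou set
  obtain ⟨K, hK⟩ : ∃ K, K = (2 * R + 1) / (r / 2) := ⟨_, rfl⟩
  have hK0 : 0 < K := by rw [hK]; positivity
  obtain ⟨s, hsd⟩ : ∃ s, s = min (min (r / 2) r1) (ε / 2 / K) := ⟨_, rfl⟩
  have hs : 0 < s := by rw [hsd]; exact lt_min (lt_min (by positivity) hr1) (by positivity)
  have hsr : s ≤ r / 2 := by rw [hsd]; exact (min_le_left _ _).trans (min_le_left _ _)
  have hsr1 : s ≤ r1 := by rw [hsd]; exact (min_le_left _ _).trans (min_le_right _ _)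
  have hsK : s ≤ ε / 2 / K := by rw [hsd]; exact min_le_right _ _
  have hzF : ∀ t : ℂ, ‖t‖ < s → (z0 : OnePoint ℂ) ∉ JS (Rf (v + t • u)) := by
    intro t ht hzJ
    have htr : ‖t‖ ≤ r := by linarith
    have hU : ((↑) : ℂ → OnePoint ℂ) '' ball z0 (ε / 2) ∈ 𝓝 (z0 : OnePoint ℂ) :=
      (OnePoint.isOpenEmbedding_coe.isOpenMap _ isOpen_ball).mem_nhds ⟨z0, mem_ball_self (by linarith), rfl⟩
    obtain ⟨p, x, m, hp, hc, hm, ⟨b, hb, hbx⟩, -⟩ := rep_near hd (hcop t htr) (hdeg t htr) (hinf t htr)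
      (fun p hp => hne p hp t htr) hzJ hU finite_empty
    have hbx' : b = x 0 := OnePoint.coe_injective hbx
    have hin : ∀ t' : ℂ, ‖t'‖ ≤ r / 2 → ‖t + t'‖ ≤ r := fun t' ht' => by
      have := norm_add_le t t'
      linarith
    obtain ⟨F, hFd, hF0, hFt⟩ := rep_mv (v := v + t • u) (w := u) (r := r / 2) (R := R) (p := p) (by positivity)
      (fun t' ht' => by rw [hshift]; exact hcop _ (hin t' ht'))
      (fun t' ht' => by rw [hshift]; exact hne p hp _ (hin t' ht'))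
      (fun t' ht' => by rw [hshift]; exact hbd p hp _ (hin t' ht')) hp hc hm
    have hmt : -t ∈ ball (0 : ℂ) (r / 2) := by
      rw [mem_ball_zero_iff, norm_neg]
      linarith
    have hmap : MapsTo F (ball 0 (r / 2)) (closedBall (F 0) (2 * R + 1)) := by
      intro t' ht'
      rw [mem_closedBall, dist_eq_norm]
      have h1 := (hFt t' ht').1
      have h2 := (hFt 0 (mem_ball_self (by positivity))).1
      have h3 := norm_sub_le (F t') (F 0)
      linarith
    have hLip := Complex.dist_le_div_mul_dist_of_mapsTo_ball hFd hmap hmt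
    rw [← hK, dist_zero_right, norm_neg] at hLip
    have hJt := (hFt _ hmt).2
    rw [hshift, add_neg_cancel, hv0] at hJt
    apply hJt
    apply hεF
    rw [mem_ball]
    have h1 := dist_triangle (F (-t)) (F 0) z0
    have h2 : K * ‖t‖ < ε / 2 := by
      have h3 : ‖t‖ < ε / 2 / K := ht.trans_le hsK
      rw [lt_div_iff₀ hK0] at h3
      linarith
    have h3 : dist (F 0) z0 < ε / 2 := by
      rw [hF0, ← hbx']
      exact hb
    linarith
  obtain ⟨C, hC, hLip⟩ := orb_lipF (Q := ![Q0, Q1, Q2]) hs (v := v) (w := u) (fun t ht => hcop t (by linarith))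
    (fun t ht => hdeg t (by linarith))
    (by
      have hsub : ball (0 : ℂ) s ⊆ ball 0 r := ball_subset_ball (by linarith)
      intro j
      fin_cases j
      · exact e1.mono hsub
      · exact e2.mono hsub
      · exact e3.mono hsub)
    (by
      intro i j hij t ht
      have h1 := hr1n t (mem_ball_zero_iff.2 (by linarith))
      fin_cases i <;> fin_cases j
      · exact absurd rfl hij
      · exact h1.1
      · exact h1.2.1
      · exact h1.1.symm
      · exact absurd rfl hij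
      · exact h1.2.2
      · exact h1.2.1.symm
      · exact h1.2.2.symm
      · exact absurd rfl hij) (z0 := z0)
    (by
      intro t ht n j h0
      have htr : ‖t‖ ≤ r := by linarith
      have htb : t ∈ ball (0 : ℂ) r := mem_ball_zero_iff.2 (by linarith)
      have h1 : ((![Q0, Q1, Q2] : Fin 3 → ℂ → ℂ) j t : OnePoint ℂ) ∈ JS (Rf (v + t • u)) := by
        fin_cases j
        · exact (g1 t htb).2
        · exact (g2 t htb).2
        · exact (g3 t htb).2
      rw [← h0] at h1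
      apply hzF t ht
      intro h2
      exact h1 ((Pool.Agent.H47.RJ.fs_iff (v := v + t • u) (by omega) (hcop t htr)
        (hdeg t htr) n (z0 : OnePoint ℂ)).2 h2))
  -- the sequence
  obtain ⟨t, htd⟩ : ∃ t : ℕ → ℂ, t = fun k : ℕ => (1 / ((k : ℂ) + 1)) := ⟨_, rfl⟩
  have ht : Tendsto t atTop (𝓝 0) := by
    have h1 := (Complex.continuous_ofReal.tendsto 0).comp (tendsto_one_div_add_atTop_nhds_zero_nat (𝕜 := ℝ))
    rw [Complex.ofReal_zero] at h1
    rw [htd]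
    refine h1.congr fun k => ?_
    simp
  have hlim : Tendsto (fun k : ℕ => v + t k • u) atTop (𝓝 v) := by
    have h1 := (ht.smul_const u).const_add v
    rwa [zero_smul, add_zero] at h1
  -- the attracted set is open, its complement contains the orbit of `z0`
  have hop : IsOpen {z : OnePoint ℂ | Att (Rf v) z} := by
    rw [isOpen_iff_mem_nhds]
    intro z hz
    obtain ⟨W, hW, h1⟩ := att_pers hd hcop0 hdeg0 hz
    exact mem_of_superset hW fun z hz => h1.self_of_nhds z hz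
  have horb : ∀ k : ℕ, ¬ Att (Rf v) ((Rf v)^[k] (z0 : OnePoint ℂ)) := by
    intro k hk
    exact hna ((Pool.Agent.H32.BT.att_iter (rat_continuous hcop0) (z0 : OnePoint ℂ) k).1 hk)
  have hsink : ∀ k : ℕ, ‖t k‖ < s / 2 → ∃ (a b : OnePoint ℂ) (N : ℕ), IsSink (Rf (v + t k • u)) a N ∧
      ¬ Att (Rf v) b ∧ chord b a ≤ C * ‖t k‖ := by
    intro n hn
    have hks : ‖t n‖ < s := by linarith
    have htr : ‖t n‖ ≤ r := by linarith
    have hwk := hw n
    have e1 : (1 / ((n : ℂ) + 1)) = t n := by rw [htd]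
    rw [e1] at hwk
    have hFu : FS (Rf (v + t n • u)) = {x | Att (Rf (v + t n • u)) x} := by
      by_contra h1
      rw [hlin] at h1
      have h2 := (hgb _ (hvb _ htr)).1
      exact hwk ⟨h2.cop, genM_deg h2, h1⟩
    have hzA : Att (Rf (v + t n • u)) (z0 : OnePoint ℂ) := by
      have h1 : (z0 : OnePoint ℂ) ∈ FS (Rf (v + t n • u)) := by
        by_contra h2
        exact hzF _ hks h2
      rw [hFu] at h1
      exact h1
    obtain ⟨a, N, hsk, hlima⟩ := hzA
    obtain ⟨b, -, σ, hσ, hlimb⟩ := isCompact_univ.tendsto_subseq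
      (x := fun i : ℕ => (Rf v)^[N * i] (z0 : OnePoint ℂ)) fun _ => mem_univ _
    refine ⟨a, b, N, hsk, ?_, ?_⟩
    · have hcl : IsClosed {z : OnePoint ℂ | ¬ Att (Rf v) z} := by
        have h1 := hop.isClosed_compl
        exact h1
      exact hcl.mem_of_tendsto hlimb (Eventually.of_forall fun i => horb _)
    · have h1 : Tendsto (fun i : ℕ => chord ((Rf v)^[N * σ i] (z0 : OnePoint ℂ))
          ((Rf (v + t n • u))^[N * σ i] (z0 : OnePoint ℂ))) atTop (𝓝 (chord b a)) := by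
        have h2 := hlimb.prodMk_nhds (hlima.comp hσ.tendsto_atTop)
        exact (chord_cont.continuousAt (x := (b, a))).tendsto.comp h2
      exact le_of_tendsto h1 (Eventually.of_forall fun i => hLip _ hn _)
  have hev : ∀ᶠ k in atTop, ‖t k‖ < s / 2 := by
    have h1 := ht.norm
    rw [norm_zero] at h1
    exact h1.eventually (gt_mem_nhds (by linarith))
  obtain ⟨k0, hk0⟩ := eventually_atTop.1 hev
  choose a b N ha hb hab using fun k : ℕ => hsink (k0 + k) (hk0 _ (Nat.le_add_right _ _))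
  obtain ⟨q, -, σ, hσ, hlimq⟩ := isCompact_univ.tendsto_subseq (x := b) fun _ => mem_univ _
  have hq : ¬ Att (Rf v) q := by
    have hcl : IsClosed {z : OnePoint ℂ | ¬ Att (Rf v) z} := by
      have h1 := hop.isClosed_compl
      exact h1
    exact hcl.mem_of_tendsto hlimq (Eventually.of_forall fun i => hb _)
  obtain ⟨ε1, hε1, hj⟩ := na_jump hd hcop0 hdeg0 hq
  have hshiftt : Tendsto (fun i : ℕ => k0 + σ i) atTop atTop :=
    tendsto_atTop_mono (fun i => Nat.le_add_left _ _) hσ.tendsto_atTop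
  have h1 : Tendsto (fun i : ℕ => chord q (b (σ i))) atTop (𝓝 0) := by
    have h2 : ContinuousAt (fun y => chord q y) q :=
      (chord_cont.comp (Continuous.prodMk continuous_const continuous_id)).continuousAt
    have h3 := h2.tendsto.comp hlimq
    rwa [chord_zero] at h3
  have h2 : Tendsto (fun i : ℕ => C * ‖t (k0 + σ i)‖) atTop (𝓝 0) := by
    have h3 := (ht.norm.comp hshiftt).const_mul C
    rwa [norm_zero, mul_zero] at h3
  have h3 : ∀ᶠ i in atTop, chord q (a (σ i)) < ε1 := by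
    have h4 := (h1.add h2).eventually (gt_mem_nhds (by rw [add_zero]; exact hε1 : (0 : ℝ) + 0 < ε1))
    filter_upwards [h4] with i hi
    exact (Pool.Agent.H47.RJ.ch_tri q (b (σ i)) (a (σ i))).trans_lt
      (lt_of_le_of_lt (add_le_add le_rfl (hab (σ i))) hi)
  have h4 := hlim.comp hshiftt
  have h5 : ∀ᶠ i in atTop, ‖t (k0 + σ i)‖ ≤ r := by
    have h6 := ht.norm.comp hshiftt
    rw [norm_zero] at h6
    filter_upwards [h6.eventually (gt_mem_nhds hr)] with i hi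
    exact hi.le
  obtain ⟨i, ⟨hi1, hi2⟩, hi3⟩ := ((h3.and (h4.eventually (ball_mem_nhds v hε1))).and h5).exists
  have h7 : NA v + 1 ≤ NA (v + t (k0 + σ i) • u) := hj _ hi2 (hcop _ hi3) (hdeg _ hi3) (a (σ i)) (N (σ i)) hi1 (ha (σ i))
  rw [hlin, hv] at h7
  have h8 := (hgb _ (hvb _ hi3)).2.1
  omega

/-- the Fatou set of a locally maximal map of the family is the union of the basins -/
theorem fs_attF (hd : 2 ≤ d) (hfat : ∀ k : ℕ, 2 ≤ k → k ≤ d → volume {x : Em d k | IsCoprime (pol x.1) (pol x.2) ∧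
      max (pol x.1).natDegree (pol x.2).natDegree = d ∧
      FS (Rf (ex d k x)) ≠ {z | Att (Rf (ex d k x)) z}} = 0) (hk : 2 ≤ k) (hkd : k ≤ d)
    {x : Em d k} (hcop : IsCoprime (pol x.1) (pol x.2))
    (hdeg : max (pol x.1).natDegree (pol x.2).natDegree = d) (hup : ¬ UpF d k x) {z : OnePoint ℂ}
    (hF : z ∈ FS (Rf (ex d k x))) : Att (Rf (ex d k x)) z := by
  obtain ⟨l, y, φ, K, hl, hld, hg, hK, hφ, hup'⟩ := red_gen hd hk hkd hcop hdeg
  have h2 : φ z ∈ FS (Rf (ex d l y)) := (Pool.Agent.H76.SU.fs_conj hK hφ z).2 hF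
  have h3 := fsF_gen hd hl hld (hfat l hl hld) hg (fun h => hup (hup' h)) h2
  exact (att_conj φ hφ z).1 h3

end Pool.Agent.H64.MF
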