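import Pool.Agent.H64.MJ.FSA
import Pool.Agent.H44.NR.Pdj
import Pool.Agent.H57.CF.ALF

/-!
# Module GB: maps near a locally maximal map of a family; repelling cycles near a point of the Julia set
-/

set_option autoImplicit false

open Filter Topology Polynomial Metric Set MeasureTheory

namespace Pool.Agent.H64.MF

open Pool.Agent.H44.Fatou Pool.Agent.H32.BT Pool.Agent.H79.Eul Pool.Agent.H79.Par
open Pool.Agent.H35.EX Pool.Agent.H44.RR Pool.Agent.H56.HR Pool.Agent.H44.RC Pool.Agent.H47.RJ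
open Pool.Agent.H47.NM Pool.Agent.H47.NN Pool.Agent.H44.ND Pool.Agent.H79.ES Pool.Agent.H64.MJ Pool.Agent.H57.CF

variable {d k : ℕ}

theorem inf_att (hk : 2 ≤ k) (hkd : k ≤ d) {x : Em d k} (hg : GenM d k (pol x.1) (pol x.2)) :
    Rf (ex d k x) OnePoint.infty = OnePoint.infty ∧ Att (Rf (ex d k x)) OnePoint.infty := by
  obtain ⟨h1, h2, -⟩ := inf_sink (fam_ex hk hkd hg) one_pos
  refine ⟨h1, OnePoint.infty, 1, h2, ?_⟩
  have h3 : ∀ j : ℕ, (Rf (ex d k x))^[1 * j] OnePoint.infty = OnePoint.infty := by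
    intro j
    rw [one_mul]
    exact Function.iterate_fixed h1 j
  simp only [h3]
  exact tendsto_const_nhds

theorem ex_lin (x0 w : Em d k) (t : ℂ) : ex d k x0 + t • ex d k w = ex d k (x0 + t • w) := by
  refine Prod.ext rfl (funext fun i => ?_)
  show (ex d k x0).2 i + t • (ex d k w).2 i = (ex d k (x0 + t • w)).2 i
  unfold ex
  by_cases h : (i : ℕ) < d - k + 1
  · simp only [h, dite_true]
    rfl
  · simp only [h, dite_false, smul_zero, add_zero]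

theorem good_ball (hd : 2 ≤ d) (hk : 2 ≤ k) (hkd : k ≤ d) {x0 : Em d k} (hg : GenM d k (pol x0.1) (pol x0.2))
    (hup : ¬ UpF d k x0) : ∃ ε R : ℝ, 0 < ε ∧ 0 < R ∧ ∀ v ∈ ball x0 ε, GenM d k (pol v.1) (pol v.2) ∧
      NA (ex d k v) ≤ NA (ex d k x0) ∧
      (∀ p : ℕ, 0 < p → ∀ x m, Cyc (pol (ex d k v).1) (pol (ex d k v).2) p x m → ‖m‖ ≠ 1) ∧
      (∀ p : ℕ, 0 < p → ∀ x m, Cyc (pol (ex d k v).1) (pol (ex d k v).2) p x m → 1 ≤ ‖m‖ →
        ∀ i, i ≤ p → ‖x i‖ ≤ R) := by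
  have hcop := hg.cop
  have hdeg := genM_deg hg
  obtain ⟨hinf0, hinf⟩ := inf_att hk hkd hg
  obtain ⟨ε0, hε0, hno⟩ : ∃ ε : ℝ, 0 < ε ∧ ∀ w ∈ ball x0 ε, IsCoprime (pol w.1) (pol w.2) →
      max (pol w.1).natDegree (pol w.2).natDegree = d → NA (ex d k w) ≤ NA (ex d k x0) := by
    unfold UpF at hup
    push Not at hup
    obtain ⟨ε, hε, h⟩ := hup
    exact ⟨ε, hε, fun w hw h1 h2 => Nat.lt_succ_iff.1 (h w hw h1 h2)⟩
  obtain ⟨W, hW, hWv⟩ := att_pers hd (ex_cop hcop) (ex_deg hdeg) hinf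
  have hev : ∀ᶠ v in 𝓝 x0, (∀ z ∈ W, Att (Rf (ex d k v)) z) ∧ GenM d k (pol v.1) (pol v.2) ∧
      NA (ex d k x0) ≤ NA (ex d k v) :=
    ((ex_cont d k).continuousAt.eventually hWv).and ((genM_near hd hkd hg).and (ex_low hd hcop hdeg))
  obtain ⟨ε1, hε1, hall⟩ := Metric.eventually_nhds_iff_ball.1 hev
  obtain ⟨ε, hεd⟩ : ∃ ε, ε = min ε0 ε1 := ⟨_, rfl⟩
  have hε : 0 < ε := by rw [hεd]; exact lt_min hε0 hε1
  have hno' : ∀ v ∈ ball x0 ε, ¬ UpF d k v := by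
    intro v hv hu
    rw [hεd] at hv
    have hv1 := hall v (ball_subset_ball (min_le_right _ _) hv)
    obtain ⟨δ, hδ, hδb⟩ := Metric.isOpen_iff.1 isOpen_ball v (ball_subset_ball (min_le_left _ _) hv)
    obtain ⟨w, hw, h1, h2, h3⟩ := hu δ hδ
    have h4 := hno w (hδb hw) h1 h2
    have h5 := hv1.2.2
    omega
  have hvn : ∀ v ∈ ball x0 ε, ∀ p : ℕ, 0 < p → ∀ x m,
      Cyc (pol (ex d k v).1) (pol (ex d k v).2) p x m → ‖m‖ ≠ 1 := by
    intro v hv p hp x m hc hm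
    have hv1 := hall v (ball_subset_ball (by rw [hεd]; exact min_le_right _ _) hv)
    rw [(ex_pol v).1, (ex_pol v).2] at hc
    exact hno' v hv (neu_upF hd hk hkd hv1.2.1 hp hc hm)
  obtain ⟨R, hRp, hRW⟩ : ∃ R : ℝ, 0 < R ∧ ∀ z : ℂ, R < ‖z‖ → (z : OnePoint ℂ) ∈ W := by
    have h1 : Tendsto (fun z : ℂ => (z : OnePoint ℂ)) (Filter.cocompact ℂ) (𝓝 OnePoint.infty) := by
      rw [← Filter.coclosedCompact_eq_cocompact]
      exact OnePoint.tendsto_coe_infty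
    have h2 : ∀ᶠ z : ℂ in Filter.cocompact ℂ, (z : OnePoint ℂ) ∈ W := h1.eventually hW
    rw [← Metric.cobounded_eq_cocompact,
      (Metric.hasBasis_cobounded_compl_closedBall (0 : ℂ)).eventually_iff] at h2
    obtain ⟨R0, -, hR0⟩ := h2
    refine ⟨max R0 1, lt_of_lt_of_le one_pos (le_max_right _ _), fun z hz => hR0 ?_⟩
    intro h3
    exact (mem_closedBall_zero_iff.1 h3).not_gt ((le_max_left _ _).trans_lt hz)
  refine ⟨ε, R, hε, hRp, fun v hv => ?_⟩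
  have hv1 := hall v (ball_subset_ball (by rw [hεd]; exact min_le_right _ _) hv)
  refine ⟨hv1.2.1, hno v (ball_subset_ball (by rw [hεd]; exact min_le_left _ _) hv) hv1.2.1.cop
    (genM_deg hv1.2.1), hvn v hv, fun p hp x m hc hm i hi => ?_⟩
  by_contra hlt
  exact Pool.Agent.H44.CP.big_na_all hd (ex_cop hv1.2.1.cop) (ex_deg (genM_deg hv1.2.1)) hp hc hm hi
    (hv1.1 _ (hRW _ (not_le.1 hlt)))

/-- a periodic point in the plane of a map which fixes infinity has a planar cycle -/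
theorem pl_cyc {v : E d} (hinf : Rf v OnePoint.infty = OnePoint.infty) {q : ℂ} {N : ℕ} (hN : 1 ≤ N)
    (h : (Rf v)^[N] (q : OnePoint ℂ) = (q : OnePoint ℂ)) : ∃ (x : ℕ → ℂ) (m : ℂ),
      Cyc (pol v.1) (pol v.2) N x m ∧ x 0 = q := by
  have hfin : ∀ i : ℕ, (Rf v)^[i] (q : OnePoint ℂ) ≠ OnePoint.infty := by
    intro i hi
    obtain ⟨j, hj⟩ := Pool.Agent.H47.PS.orb_back hN h i
    rw [hi, Function.iterate_fixed hinf j] at hj
    exact OnePoint.infty_ne_coe _ hj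
  choose x hx using fun i => OnePoint.ne_infty_iff_exists.1 (hfin i)
  have hst : ∀ i, rat (pol v.1) (pol v.2) (x i : OnePoint ℂ) = (x (i + 1) : OnePoint ℂ) := by
    intro i
    rw [hx, hx, Function.iterate_succ_apply']
    rfl
  have hne : ∀ i, (pol v.2).eval (x i) ≠ 0 := by
    intro i h0
    have h1 := hst i
    rw [rat_coe, h0] at h1
    unfold pt at h1
    rw [if_pos rfl] at h1
    exact OnePoint.infty_ne_coe _ h1
  refine ⟨x, _, ⟨fun i _ => hne i, fun i _ => ?_, ?_, rfl⟩, OnePoint.coe_injective (hx 0)⟩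
  · have h1 := hst i
    rw [rat_coe_of_ne (hne i)] at h1
    exact OnePoint.coe_injective h1
  · apply OnePoint.coe_injective
    rw [hx, hx, h]
    rfl

/-- repelling cycles near a point of the Julia set -/
theorem rep_near (hd : 2 ≤ d) {v : E d} (hcop : IsCoprime (pol v.1) (pol v.2))
    (hdeg : max (pol v.1).natDegree (pol v.2).natDegree = d) (hinf : Rf v OnePoint.infty = OnePoint.infty)
    (hN : ∀ p : ℕ, 0 < p → ∀ x m, Cyc (pol v.1) (pol v.2) p x m → ‖m‖ ≠ 1)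
    {y : OnePoint ℂ} (hy : y ∈ JS (Rf v)) {U : Set (OnePoint ℂ)} (hU : U ∈ 𝓝 y) {F : Set (OnePoint ℂ)}
    (hF : F.Finite) : ∃ (p : ℕ) (x : ℕ → ℂ) (m : ℂ), 0 < p ∧ Cyc (pol v.1) (pol v.2) p x m ∧ 1 < ‖m‖ ∧
      (x 0 : OnePoint ℂ) ∈ U ∧ (x 0 : OnePoint ℂ) ∉ F := by
  have hS := sink_fin hd hcop hdeg
  obtain ⟨T, hT⟩ : ∃ T : Set (OnePoint ℂ), T = F ∪ ({z : OnePoint ℂ | ∃ n : ℕ, IsSink (Rf v) z n} ∪
      {OnePoint.infty}) := ⟨_, rfl⟩
  have hTf : T.Finite := by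
    rw [hT]
    exact hF.union (hS.union (finite_singleton _))
  obtain ⟨ε, hε, hεU⟩ := Pool.Agent.H47.RJ.ch_nhds (interior_mem_nhds.2 hU)
  obtain ⟨y', hy', hyT⟩ := ((js_perfect hd hcop hdeg hy hε).diff hTf).nonempty
  have hU' : interior U ∩ Tᶜ ∈ 𝓝 y' :=
    inter_mem (isOpen_interior.mem_nhds (hεU _ hy'.2)) (hTf.isClosed.isOpen_compl.mem_nhds hyT)
  obtain ⟨q, ⟨hqU, hqT⟩, N, hN1, hq⟩ := Pool.Agent.H44.NR.per_dense hd hcop hdeg hy'.1 hU'
  have hqi : q ≠ OnePoint.infty := by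
    rintro rfl
    apply hqT
    rw [hT]
    exact Or.inr (Or.inr rfl)
  obtain ⟨q1, rfl⟩ := OnePoint.ne_infty_iff_exists.1 hqi
  obtain ⟨x, m, hc, hx0⟩ := pl_cyc hinf hN1 hq
  refine ⟨N, x, m, hN1, hc, ?_, ?_, ?_⟩
  · rcases lt_or_gt_of_ne (hN N hN1 x m hc) with h1 | h1
    · exfalso
      have h2 := cyc_sink hcop hN1 hc h1
      apply hqT
      rw [hT]
      refine Or.inr (Or.inl ⟨N, ?_⟩)
      rwa [hx0] at h2
    · exact h1
  · rw [hx0]
    exact interior_subset hqU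
  · rw [hx0]
    intro h1
    apply hqT
    rw [hT]
    exact Or.inl h1

/-- near a Fatou point which is not attracted no point is attracted -/
theorem natt_near (hd : 2 ≤ d) {v : E d} (hcop : IsCoprime (pol v.1) (pol v.2))
    (hdeg : max (pol v.1).natDegree (pol v.2).natDegree = d) {z : OnePoint ℂ} (hz : z ∈ FS (Rf v))
    (hna : ¬ Att (Rf v) z) : ∀ᶠ y in 𝓝 z, ¬ Att (Rf v) y := by
  have hS := sink_fin hd hcop hdeg
  have hop : ∀ a, Att (Rf v) a → ∃ ε : ℝ, 0 < ε ∧ ∀ y, chord a y < ε → Att (Rf v) y := by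
    intro a ha
    obtain ⟨W, hW, h1⟩ := att_pers hd hcop hdeg ha
    obtain ⟨ε, hε, h2⟩ := Pool.Agent.H47.RJ.ch_nhds hW
    exact ⟨ε, hε, fun y hy => h1.self_of_nhds y (h2 y hy)⟩
  obtain ⟨ε, hε, hεA⟩ : ∃ ε : ℝ, 0 < ε ∧ ∀ a ∈ {z : OnePoint ℂ | ∃ n : ℕ, IsSink (Rf v) z n}, ∀ y,
      chord a y < ε → Att (Rf v) y := by
    have h1 : ∀ a ∈ {z : OnePoint ℂ | ∃ n : ℕ, IsSink (Rf v) z n}, ∀ᶠ ε : ℝ in 𝓝[>] 0, ∀ y,
        chord a y < ε → Att (Rf v) y := by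
      rintro a ⟨n, ha⟩
      obtain ⟨ε, hε, h2⟩ := hop a (Pool.Agent.H32.BT.att_sink ha)
      filter_upwards [Ioo_mem_nhdsGT hε] with δ hδ y hy
      exact h2 y (hy.trans hδ.2)
    have h2 := (eventually_all_finite hS).2 h1
    obtain ⟨ε, h3, h4⟩ := (h2.and self_mem_nhdsWithin).exists
    exact ⟨ε, h4, h3⟩
  have hE : EqAt (Rf v) z := interior_subset hz
  filter_upwards [hE (ε / 2) (by positivity)] with y hy hya
  obtain ⟨a, n, hs, hlim⟩ := hya
  have h1 := (Pool.Agent.H47.RJ.ch_tend.1 hlim) (ε / 2) (by positivity)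
  obtain ⟨j, hj⟩ := h1.exists
  apply hna
  have h2 : Att (Rf v) ((Rf v)^[n * j] z) := by
    refine hεA a ⟨n, hs⟩ _ ?_
    have h3 := Pool.Agent.H47.RJ.ch_tri a ((Rf v)^[n * j] y) ((Rf v)^[n * j] z)
    have h4 := hy (n * j)
    rw [Pool.Agent.H35.EX.chord_comm] at h4
    linarith
  exact (Pool.Agent.H32.BT.att_iter (rat_continuous hcop) z (n * j)).1 h2

/-- the Julia set is not empty -/
theorem js_ne (hd : 2 ≤ d) {v : E d} (hcop : IsCoprime (pol v.1) (pol v.2))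
    (hdeg : max (pol v.1).natDegree (pol v.2).natDegree = d) {a z : OnePoint ℂ} (ha : Att (Rf v) a)
    (hna : ¬ Att (Rf v) z) : (JS (Rf v)).Nonempty := by
  by_contra hne
  rw [not_nonempty_iff_eq_empty] at hne
  have hall : ∀ x, x ∈ FS (Rf v) := by
    intro x
    by_contra h
    have h1 : x ∈ JS (Rf v) := h
    rw [hne] at h1
    exact h1
  have hop : IsOpen {z : OnePoint ℂ | Att (Rf v) z} := by
    rw [isOpen_iff_mem_nhds]
    intro z hz
    obtain ⟨W, hW, h1⟩ := att_pers hd hcop hdeg hz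
    exact mem_of_superset hW fun z hz => h1.self_of_nhds z hz
  have hcl : IsClosed {z : OnePoint ℂ | Att (Rf v) z} := by
    rw [← isOpen_compl_iff, isOpen_iff_mem_nhds]
    intro x hx
    exact natt_near hd hcop hdeg (hall x) hx
  have h1 := IsClopen.eq_univ ⟨hcl, hop⟩ ⟨a, ha⟩
  have h2 : z ∈ {z : OnePoint ℂ | Att (Rf v) z} := by
    rw [h1]
    exact mem_univ _
  exact hna h2

end Pool.Agent.H64.MF
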